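import Pool.Agent.LPR.Stmts

/-! Row FLO of squad LPR: flow boxes. -/

set_option autoImplicit false

open Set Topology

namespace Pool.Agent.LPR.H98

open Pool.Agent.LSG Pool.Agent.LPR

theorem intPos (g : ℝ → ℝ) (hg : Continuous g) (s d : ℝ) (hs : |s| ≤ d)
    (h : ∀ u, |u| ≤ d → 1 / 2 ≤ g u) :
    (0 ≤ s → s / 2 ≤ ∫ u in (0 : ℝ)..s, g u) ∧ (s ≤ 0 → ∫ u in (0 : ℝ)..s, g u ≤ s / 2) := by
  constructor
  · intro h0
    have h1 : ∫ _ in (0 : ℝ)..s, (1 / 2 : ℝ) ≤ ∫ u in (0 : ℝ)..s, g u := by
      apply intervalIntegral.integral_mono_on h0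
      · exact intervalIntegrable_const
      · exact hg.intervalIntegrable _ _
      · intro u hu
        apply h
        rw [abs_of_nonneg hu.1]
        exact hu.2.trans ((le_abs_self s).trans hs)
    rw [intervalIntegral.integral_const, smul_eq_mul] at h1
    linarith
  · intro h0
    have h1 : ∫ _ in s..(0 : ℝ), (1 / 2 : ℝ) ≤ ∫ u in s..(0 : ℝ), g u := by
      apply intervalIntegral.integral_mono_on h0
      · exact intervalIntegrable_const
      · exact hg.intervalIntegrable _ _
      · intro u hu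
        apply h
        rw [abs_of_nonpos hu.2]
        have := (neg_le_abs s).trans hs
        linarith [hu.1]
    rw [intervalIntegral.integral_const, smul_eq_mul] at h1
    rw [intervalIntegral.integral_symm]
    linarith

theorem intShift (g : ℝ → ℝ) (hg : Continuous g) (τ s : ℝ) :
    (∫ u in (0 : ℝ)..τ, g (u + s)) - ∫ u in (0 : ℝ)..τ, g u =
      ∫ u in (0 : ℝ)..s, (g (u + τ) - g u) := by
  have i : ∀ a b, IntervalIntegrable g MeasureTheory.volume a b :=
    fun a b => hg.intervalIntegrable a b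
  have hg2 : Continuous fun u => g (u + τ) := hg.comp (continuous_id.add continuous_const)
  rw [intervalIntegral.integral_sub (hg2.intervalIntegrable _ _) (i _ _),
    intervalIntegral.integral_comp_add_right, intervalIntegral.integral_comp_add_right, zero_add,
    zero_add]
  have h1 := intervalIntegral.integral_add_adjacent_intervals (i 0 s) (i s (τ + s))
  have h2 := intervalIntegral.integral_add_adjacent_intervals (i 0 τ) (i τ (s + τ))
  have h3 : τ + s = s + τ := add_comm _ _
  rw [h3] at h1 ⊢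
  linarith

theorem flo : FloStmt := by
  intro X _ _ φ hφ h0 hadd p hp
  obtain ⟨τ, hτ⟩ := hp
  let _ : MetricSpace X := TopologicalSpace.metrizableSpaceMetric X
  have hdpos : 0 < dist (φ τ p) p := dist_pos.2 hτ
  let f : X → ℝ := fun x => dist x p / dist (φ τ p) p
  have hf : Continuous f := (continuous_id.dist continuous_const).div_const _
  have hf0 : f p = 0 := by simp [f]
  have hf1 : f (φ τ p) = 1 := div_self hdpos.ne'
  have hφt : ∀ t : ℝ, Continuous (φ t) := fun t =>
    hφ.comp (continuous_const.prodMk continuous_id)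
  have hφx : ∀ x : X, Continuous fun t => φ t x := fun x =>
    hφ.comp (continuous_id.prodMk continuous_const)
  let F : X → ℝ := fun x => ∫ u in (0 : ℝ)..τ, f (φ u x)
  have hF : Continuous F := by
    apply intervalIntegral.continuous_parametric_intervalIntegral_of_continuous'
      (f := fun (x : X) (u : ℝ) => f (φ u x))
    exact hf.comp (hφ.comp (continuous_snd.prodMk continuous_fst))
  have hFs : ∀ (x : X) (s : ℝ), F (φ s x) - F x =
      ∫ u in (0 : ℝ)..s, (f (φ (u + τ) x) - f (φ u x)) := by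
    intro x s
    have h1 := intShift (fun u => f (φ u x)) (hf.comp (hφx x)) τ s
    have h2 : (fun u => f (φ u (φ s x))) = fun u => f (φ (u + s) x) := by
      funext u
      rw [hadd]
    change (∫ u in (0 : ℝ)..τ, f (φ u (φ s x))) - (∫ u in (0 : ℝ)..τ, f (φ u x)) = _
    rw [h2]
    exact h1
  -- the region where the derivative is at least one half
  have hh : Continuous fun q : ℝ × X => f (φ (q.1 + τ) q.2) - f (φ q.1 q.2) := by
    have a1 : Continuous fun q : ℝ × X => f (φ (q.1 + τ) q.2) :=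
      hf.comp (hφ.comp ((continuous_fst.add continuous_const).prodMk continuous_snd))
    have a2 : Continuous fun q : ℝ × X => f (φ q.1 q.2) := hf.comp hφ
    exact a1.sub a2
  have hmem : {q : ℝ × X | 1 / 2 < f (φ (q.1 + τ) q.2) - f (φ q.1 q.2)} ∈ 𝓝 ((0 : ℝ), p) := by
    apply (isOpen_lt continuous_const hh).mem_nhds
    change 1 / 2 < f (φ (0 + τ) p) - f (φ 0 p)
    rw [zero_add, h0, hf0, hf1]
    norm_num
  obtain ⟨u0, hu0, W0, hW0, hsub⟩ := mem_nhds_prod_iff.1 hmem
  obtain ⟨d0, hd0, hball⟩ := Metric.mem_nhds_iff.1 hu0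
  let W : Set X := interior W0
  have hWo : IsOpen W := isOpen_interior
  have hpW : p ∈ W := mem_interior_iff_mem_nhds.2 hW0
  have hhalf : ∀ x ∈ W, ∀ u : ℝ, |u| < d0 → 1 / 2 ≤ f (φ (u + τ) x) - f (φ u x) := by
    intro x hx u hu
    have : (u, x) ∈ u0 ×ˢ W0 := ⟨hball (by
      rw [Metric.mem_ball, Real.dist_eq, sub_zero]
      exact hu), interior_subset hx⟩
    exact le_of_lt (hsub this)
  have hmem2 : {q : ℝ × X | φ q.1 q.2 ∈ W} ∈ 𝓝 ((0 : ℝ), p) := by
    apply (hWo.preimage hφ).mem_nhds
    change φ 0 p ∈ W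
    rw [h0]
    exact hpW
  obtain ⟨u1, hu1, V, hV, hsub1⟩ := mem_nhds_prod_iff.1 hmem2
  obtain ⟨d1, hd1, hball1⟩ := Metric.mem_nhds_iff.1 hu1
  obtain ⟨δ, hδ, hδ0, hδ1⟩ : ∃ δ : ℝ, 0 < δ ∧ 2 * δ < d0 ∧ δ < d1 := by
    refine ⟨min d0 d1 / 4, by positivity, ?_, ?_⟩
    · have := min_le_left d0 d1
      linarith
    · have := min_le_right d0 d1
      linarith
  have hkey : ∀ x ∈ W, ∀ s : ℝ, |s| ≤ 2 * δ →
      (0 ≤ s → s / 2 ≤ F (φ s x) - F x) ∧ (s ≤ 0 → F (φ s x) - F x ≤ s / 2) := by
    intro x hx s hs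
    rw [hFs]
    apply intPos _ _ s (2 * δ) hs
    · intro u hu
      exact hhalf x hx u (lt_of_le_of_lt hu hδ0)
    · have := hh.comp ((continuous_id.prodMk continuous_const : Continuous fun u : ℝ => (u, x)))
      exact this
  have hkey2 : ∀ x ∈ W, ∀ s : ℝ, |s| ≤ 2 * δ → |s| ≤ 2 * |F (φ s x) - F x| := by
    intro x hx s hs
    obtain ⟨h1, h2⟩ := hkey x hx s hs
    rcases le_total 0 s with h | h
    · have h3 := h1 h
      have h4 := le_abs_self (F (φ s x) - F x)
      rw [abs_of_nonneg h]
      linarith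
    · have h3 := h2 h
      have h4 := neg_le_abs (F (φ s x) - F x)
      rw [abs_of_nonpos h]
      linarith
  have hinv : ∀ (t : ℝ) (x : X), φ (-t) (φ t x) = x := by
    intro t x
    rw [← hadd, neg_add_cancel, h0]
  have hinv' : ∀ (t : ℝ) (x : X), φ t (φ (-t) x) = x := by
    intro t x
    rw [← hadd, add_neg_cancel, h0]
  let S : Set X := {x | x ∈ W ∧ F x = F p}
  let N : Set X := {y | ∃ t : ℝ, |t| ≤ δ ∧ φ (-t) y ∈ S}
  -- stability of the time
  have hstab : ∀ (y y' : X) (t t' : ℝ), |t| ≤ δ → |t'| ≤ δ → φ (-t) y' ∈ W →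
      F (φ (-t) y) = F p → F (φ (-t') y') = F p →
      |t - t'| ≤ 2 * |F (φ (-t) y) - F (φ (-t) y')| := by
    intro y y' t t' ht ht' hW' hy hy'
    have h1 : φ (t - t') (φ (-t) y') = φ (-t') y' := by
      rw [← hadd]
      congr 1
      ring
    have h2 : |t - t'| ≤ 2 * δ := (abs_sub t t').trans (by linarith)
    have h3 := hkey2 _ hW' (t - t') h2
    rw [h1, hy', ← hy] at h3
    exact h3
  refine ⟨N, ?_, S, ?_⟩
  · -- a neighbourhood
    have hlt : F (φ (-δ) p) < F p ∧ F p < F (φ δ p) := by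
      obtain ⟨h1, -⟩ := hkey p hpW δ (by rw [abs_of_pos hδ]; linarith)
      obtain ⟨-, h2⟩ := hkey p hpW (-δ) (by rw [abs_neg, abs_of_pos hδ]; linarith)
      have h3 := h1 hδ.le
      have h4 := h2 (by linarith)
      constructor <;> linarith
    have e1 : ∀ᶠ y in 𝓝 p, F (φ (-δ) y) < F p :=
      (hF.comp (hφt (-δ))).continuousAt.eventually_lt continuousAt_const hlt.1
    have e2 : ∀ᶠ y in 𝓝 p, F p < F (φ δ y) :=
      continuousAt_const.eventually_lt (hF.comp (hφt δ)).continuousAt hlt.2
    filter_upwards [e1, e2, hV] with y hy1 hy2 hyV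
    obtain ⟨s, hs, hs2⟩ := intermediate_value_Icc (by linarith : -δ ≤ δ)
      ((hF.comp (hφx y)).continuousOn) ⟨hy1.le, hy2.le⟩
    have hs3 : |s| ≤ δ := abs_le.2 hs
    refine ⟨-s, by rwa [abs_neg], ?_, ?_⟩
    · rw [neg_neg]
      have : (s, y) ∈ u1 ×ˢ V := ⟨hball1 (by
        rw [Metric.mem_ball, Real.dist_eq, sub_zero]
        exact lt_of_le_of_lt hs3 hδ1), hyV⟩
      exact hsub1 this
    · rw [neg_neg]
      exact hs2
  · choose T hT1 hT2 using fun y : N => y.2
    have huniq : ∀ (y : N) (t : ℝ), |t| ≤ δ → φ (-t) y.1 ∈ S → T y = t := by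
      intro y t ht hS
      have h1 := hstab y.1 y.1 t (T y) ht (hT1 y) hS.1 hS.2 (hT2 y).2
      rw [sub_self, abs_zero, mul_zero] at h1
      have h2 := abs_nonpos_iff.1 h1
      linarith
    have hTc : Continuous T := by
      rw [continuous_iff_continuousAt]
      intro y
      have hW1 : ∀ᶠ y' : N in 𝓝 y, φ (-(T y)) y'.1 ∈ W := by
        have hc : Continuous fun y' : N => φ (-(T y)) y'.1 :=
          (hφt _).comp continuous_subtype_val
        exact hc.continuousAt.eventually (hWo.mem_nhds (hT2 y).1)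
      have hlim : Filter.Tendsto (fun y' : N => 2 * |F (φ (-(T y)) y.1) - F (φ (-(T y)) y'.1)|)
          (𝓝 y) (𝓝 0) := by
        have hc : Continuous fun y' : N => 2 * |F (φ (-(T y)) y.1) - F (φ (-(T y)) y'.1)| :=
          continuous_const.mul ((continuous_const.sub
            (hF.comp ((hφt _).comp continuous_subtype_val))).abs)
        have := hc.tendsto y
        simpa using this
      rw [ContinuousAt, tendsto_iff_dist_tendsto_zero]
      refine squeeze_zero' (Filter.Eventually.of_forall fun _ => dist_nonneg) ?_ hlim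
      filter_upwards [hW1] with y' hy'
      rw [dist_comm, Real.dist_eq]
      exact hstab y.1 y'.1 (T y) (T y') (hT1 y) (hT1 y') hy' (hT2 y).2 (hT2 y').2
    have hIcc : ∀ y : N, T y ∈ Icc (-δ) δ := fun y => abs_le.1 (hT1 y)
    let e : ↥N ≃ₜ ↥S × ↥(Icc (-δ) δ) :=
      { toFun := fun y => (⟨φ (-(T y)) y.1, hT2 y⟩, ⟨T y, hIcc y⟩)
        invFun := fun q => ⟨φ q.2.1 q.1.1, q.2.1, abs_le.2 q.2.2, by
          rw [hinv]
          exact q.1.2⟩
        left_inv := fun y => by
          apply Subtype.ext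
          exact hinv' _ _
        right_inv := fun q => by
          have h1 : T ⟨φ q.2.1 q.1.1, q.2.1, abs_le.2 q.2.2, by
              rw [hinv]
              exact q.1.2⟩ = q.2.1 := by
            apply huniq _ _ (abs_le.2 q.2.2)
            change φ (-q.2.1) (φ q.2.1 q.1.1) ∈ S
            rw [hinv]
            exact q.1.2
          refine Prod.ext (Subtype.ext ?_) (Subtype.ext ?_)
          · change φ (-(T _)) (φ q.2.1 q.1.1) = q.1.1
            rw [h1, hinv]
          · exact h1
        continuous_toFun := by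
          refine Continuous.prodMk (Continuous.subtype_mk ?_ _) (Continuous.subtype_mk hTc _)
          exact hφ.comp (hTc.neg.prodMk continuous_subtype_val)
        continuous_invFun := by
          refine Continuous.subtype_mk ?_ _
          exact hφ.comp ((continuous_subtype_val.comp continuous_snd).prodMk
            (continuous_subtype_val.comp continuous_fst)) }
    exact ⟨e.trans ((Homeomorph.refl S).prodCongr (iccHomeoI (-δ) δ (by linarith)))⟩

end Pool.Agent.LPR.H98
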